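import Mathlib
import Pool.Agent.W612.WSL.Defs

/-!
# Virtual and welded pure braids and string links, up to self-crossing changes

The Gauss diagrams (`Diagram n`) and the moves (`Reidemeister`, `OvercrossingsCommute`,
`SelfCrossingChange`) are those of the starting library `Pool.Agent.W612.WSL.Defs`, which also
contains the quotient `WSLsc n` (welded string links up to self-crossing changes) and the
predicate `IsMonotone`.
-/

set_option autoImplicit false

namespace Pool.Agent.R810.DF

open Pool.Agent.W612.WSL

variable {n : ℕ}

/-- The set `wSL_n` of welded string links on `n` strands: Gauss diagrams modulo the generalized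
Reidemeister moves and Overcrossings Commute. -/
def WSL (n : ℕ) : Type :=
  Quot fun v w : Diagram n => Reidemeister v.1 w.1 ∨ OvercrossingsCommute v.1 w.1

/-- The set `vSL_n^sc` of virtual string links on `n` strands up to self-crossing changes: Gauss
diagrams modulo the generalized Reidemeister moves and self-crossing changes. -/
def VSLsc (n : ℕ) : Type :=
  Quot fun v w : Diagram n => Reidemeister v.1 w.1 ∨ SelfCrossingChange v.1 w.1

/-- Exchange of two neighbours in a list of ends which lie on different strands; the Gauss diagram
does not change. -/
inductive Far : List (End n) → List (End n) → Prop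
  | mk (x y : End n) (h : strand x ≠ strand y) (A B : List (End n)) :
      Far (A ++ x :: y :: B) (A ++ y :: x :: B)

/-- The Gauss diagrams of monotone string link diagrams: up to exchanges of neighbours which lie on
different strands, the list consists of the two ends of a first arrow, followed by the two ends of a
second arrow, and so on, every arrow joining different strands. -/
def IsBraid (w : List (End n)) : Prop := ∃ v, IsMonotone v ∧ Relation.EqvGen Far v w

/-- Monotone diagrams. -/
abbrev BraidDiagram (n : ℕ) : Type := {D : Diagram n // IsBraid D.1}

/-- The virtual pure braid group `vP_n` (as a set): monotone diagrams modulo the moves which are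
carried out through monotone diagrams. -/
def VP (n : ℕ) : Type := Quot fun v w : BraidDiagram n => Reidemeister v.1.1 w.1.1

/-- The welded pure braid group `wP_n` (as a set): the same with the move Overcrossings Commute. -/
def WP (n : ℕ) : Type :=
  Quot fun v w : BraidDiagram n => Reidemeister v.1.1 w.1.1 ∨ OvercrossingsCommute v.1.1 w.1.1

/-- The trivial diagram (no classical crossings). -/
def trivialDiagram (n : ℕ) : Diagram n := ⟨[], by simp [IsGauss]⟩

/-- The trivial braid. -/
def trivialBraid (n : ℕ) : BraidDiagram n :=
  ⟨trivialDiagram n, [], ⟨[], by simp, rfl⟩, Relation.EqvGen.refl _⟩

end Pool.Agent.R810.DF
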