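import Mathlib
import Pool.Agent.R810.DF.Defs

/-!
# Colourings of welded string links by the elements of a group

`Run G h w s s'`: if the strands have the colours `s` at the bottom and the over-strand at the
crossing with the name `k` has the colour `h k`, then the strands have the colours `s'` at the top.
-/

set_option autoImplicit false

namespace Pool.Agent.R810.DF

open Pool.Agent.W612.WSL

variable {n : ℕ} {G : Type} [Group G]

/-- conjugation, at a positive or negative crossing -/
def act (p : Bool) (g x : G) : G := if p then g * x * g⁻¹ else g⁻¹ * x * g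

theorem act_not_act (p : Bool) (g x : G) : act (!p) g (act p g x) = x := by
  cases p <;> simp [act, mul_assoc]

theorem act_act_not (p : Bool) (g x : G) : act p g (act (!p) g x) = x := by
  cases p <;> simp [act, mul_assoc]

theorem act_self (p : Bool) (g : G) : act p g g = g := by
  cases p <;> simp [act]

theorem act_act (p q : Bool) (g k x : G) :
    act q (act p g k) (act p g x) = act p g (act q k x) := by
  cases p <;> cases q <;> simp [act, mul_assoc]

/-- the effect of one end -/
def EStep (h : ℕ → G) (x : End n) (s s' : Fin n → G) : Prop :=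
  if x.2 then s x.1.src = h x.1.name ∧ s' = s
  else s' = Function.update s x.1.tgt (act x.1.pos (h x.1.name) (s x.1.tgt))

/-- the effect of a list of ends -/
def Run (h : ℕ → G) : List (End n) → (Fin n → G) → (Fin n → G) → Prop
  | [], s, s' => s' = s
  | x :: w, s, s' => ∃ r, EStep h x s r ∧ Run h w r s'

theorem run_append (h : ℕ → G) (v w : List (End n)) (s s' : Fin n → G) :
    Run h (v ++ w) s s' ↔ ∃ r, Run h v s r ∧ Run h w r s' := by
  induction v generalizing s with
  | nil => simp [Run]
  | cons x v ih =>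
    simp only [List.cons_append, Run, ih]
    constructor
    · rintro ⟨r, h1, r', h2, h3⟩
      exact ⟨r', ⟨r, h1, h2⟩, h3⟩
    · rintro ⟨r', ⟨r, h1, h2⟩, h3⟩
      exact ⟨r, h1, r', h2, h3⟩

theorem run_congr (h h' : ℕ → G) (w : List (End n)) (hw : ∀ x ∈ w, h x.1.name = h' x.1.name)
    (s s' : Fin n → G) : Run h w s s' ↔ Run h' w s s' := by
  induction w generalizing s with
  | nil => simp [Run]
  | cons x w ih =>
    simp only [Run]
    have h1 : ∀ r, EStep h x s r ↔ EStep h' x s r := by
      intro r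
      simp only [EStep, hw x (by simp)]
    simp only [h1, fun r => ih (fun y hy => hw y (by simp [hy])) r]

theorem run_rename (g : ℕ → ℕ) (h : ℕ → G) (w : List (End n)) (s s' : Fin n → G) :
    Run h (w.map (ren g)) s s' ↔ Run (h ∘ g) w s s' := by
  induction w generalizing s with
  | nil => simp [Run]
  | cons x w ih =>
    simp only [List.map_cons, Run, ih]
    rfl

/-- The set of the pairs (colours at the bottom, colours at the top) of colourings. -/
def Col (G : Type) [Group G] (w : List (End n)) (s s' : Fin n → G) : Prop :=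
  ∃ h : ℕ → G, Run h w s s'

/-- two lists with the same effect for all colours of the over-strands -/
def Same (h : ℕ → G) (v w : List (End n)) : Prop := ∀ s s', Run h v s s' ↔ Run h w s s'

theorem same_context {h : ℕ → G} {v w : List (End n)} (hvw : Same h v w) (A B : List (End n)) :
    Same h (A ++ v ++ B) (A ++ w ++ B) := by
  intro s s'
  simp only [run_append]
  simp only [hvw _ _]

theorem swap_far (h : ℕ → G) (x y : End n) (hxy : strand x ≠ strand y) :
    Same h [x, y] [y, x] := by
  intro s s'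
  obtain ⟨α, e⟩ := x
  obtain ⟨β, f⟩ := y
  cases e <;> cases f <;> simp only [strand, if_true, if_false, Bool.false_eq_true] at hxy <;>
    simp only [Run, EStep, if_true, if_false, Bool.false_eq_true]
  · constructor
    · rintro ⟨r, rfl, r', rfl, rfl⟩
      refine ⟨_, rfl, _, rfl, ?_⟩
      rw [Function.update_of_ne (Ne.symm hxy), Function.update_of_ne hxy,
        Function.update_comm hxy]
    · rintro ⟨r, rfl, r', rfl, rfl⟩
      refine ⟨_, rfl, _, rfl, ?_⟩
      rw [Function.update_of_ne (Ne.symm hxy), Function.update_of_ne hxy,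
        Function.update_comm hxy]
  · constructor
    · rintro ⟨r, rfl, r', ⟨h1, rfl⟩, rfl⟩
      rw [Function.update_of_ne (Ne.symm hxy)] at h1
      exact ⟨s, ⟨h1, rfl⟩, _, rfl, rfl⟩
    · rintro ⟨r, ⟨h1, rfl⟩, r', rfl, rfl⟩
      refine ⟨_, rfl, _, ⟨?_, rfl⟩, rfl⟩
      rw [Function.update_of_ne (Ne.symm hxy)]
      exact h1
  · constructor
    · rintro ⟨r, ⟨h1, rfl⟩, r', rfl, rfl⟩
      refine ⟨_, rfl, _, ⟨?_, rfl⟩, rfl⟩
      rw [Function.update_of_ne hxy]
      exact h1
    · rintro ⟨r, rfl, r', ⟨h1, rfl⟩, rfl⟩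
      rw [Function.update_of_ne hxy] at h1
      exact ⟨s, ⟨h1, rfl⟩, _, rfl, rfl⟩
  · constructor
    · rintro ⟨r, ⟨h1, rfl⟩, r', ⟨h2, rfl⟩, rfl⟩
      exact ⟨_, ⟨h2, rfl⟩, _, ⟨h1, rfl⟩, rfl⟩
    · rintro ⟨r, ⟨h1, rfl⟩, r', ⟨h2, rfl⟩, rfl⟩
      exact ⟨_, ⟨h2, rfl⟩, _, ⟨h1, rfl⟩, rfl⟩

theorem swap_tails (h : ℕ → G) (α β : Arrow n) :
    Same h [(α, true), (β, true)] [(β, true), (α, true)] := by
  intro s s'
  simp only [Run, EStep, if_true]
  constructor
  · rintro ⟨r, ⟨h1, rfl⟩, r', ⟨h2, rfl⟩, rfl⟩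
    exact ⟨_, ⟨h2, rfl⟩, _, ⟨h1, rfl⟩, rfl⟩
  · rintro ⟨r, ⟨h1, rfl⟩, r', ⟨h2, rfl⟩, rfl⟩
    exact ⟨_, ⟨h2, rfl⟩, _, ⟨h1, rfl⟩, rfl⟩

end Pool.Agent.R810.DF
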