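import Mathlib
import Pool.Agent.R810.DF.Inv

set_option autoImplicit false

namespace Pool.Agent.R810.DF

open Pool.Agent.W612.WSL

variable {n : ℕ} {G : Type} [Group G]

/-- the name and the kind of an end -/
def key (x : End n) : ℕ × Bool := (x.1.name, x.2)

theorem names_ne {v rest : List (End n)} {α : Arrow n} {e : Bool}
    (h : (v.map key).Nodup) (hp : v.Perm ((α, e) :: (α, !e) :: rest)) :
    ∀ x ∈ rest, x.1.name ≠ α.name := by
  have h1 : (((α, e) :: (α, !e) :: rest).map key).Nodup := (hp.map key).nodup_iff.mp h
  simp only [List.map_cons, List.nodup_cons, List.mem_cons, List.mem_map, not_or, not_exists,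
    not_and, key] at h1
  intro x hx hne
  obtain ⟨⟨_, h2⟩, h3, _⟩ := h1
  have h2' := h2 x hx
  have h3' := h3 x hx
  rw [hne] at h2' h3'
  simp only [Prod.mk.injEq, true_and] at h2' h3'
  cases e <;> cases hx2 : x.2 <;> simp_all

theorem col_of_same {v w : List (End n)} (h : ∀ h : ℕ → G, Same h v w) (s s' : Fin n → G) :
    Col G v s s' ↔ Col G w s s' := by
  unfold Col
  exact exists_congr fun k => h k s s'

theorem col_r1 (α : Arrow n) (hα : α.src = α.tgt) (e : Bool) (A B : List (End n))
    (hv : ((A ++ (α, e) :: (α, !e) :: B).map key).Nodup) (s s' : Fin n → G) :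
    Col G (A ++ (α, e) :: (α, !e) :: B) s s' ↔ Col G (A ++ B) s s' := by
  have hne := names_ne (rest := A ++ B) hv (by
    refine List.perm_append_comm.trans ?_
    simp only [List.cons_append]
    exact List.Perm.cons _ (List.Perm.cons _ List.perm_append_comm))
  have key1 : ∀ (h : ℕ → G) (r r' : Fin n → G),
      Run h [(α, e), (α, !e)] r r' ↔ (r α.src = h α.name ∧ r' = r) := by
    intro h r r'
    cases e <;> simp only [Run, EStep, if_true, if_false, Bool.false_eq_true, Bool.not_true,
      Bool.not_false, ← hα]
    · constructor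
      · rintro ⟨_, rfl, _, ⟨h1, rfl⟩, rfl⟩
        rw [Function.update_self] at h1
        have h2 : r α.src = h α.name := by
          have := congrArg (act (!α.pos) (h α.name)) h1
          rw [act_not_act, act_self] at this
          exact this
        refine ⟨h2, ?_⟩
        rw [h2, act_self, ← h2, Function.update_eq_self]
      · rintro ⟨h1, rfl⟩
        refine ⟨_, rfl, r', ⟨?_, ?_⟩, rfl⟩
        · rw [Function.update_self, h1, act_self]
        · rw [h1, act_self, ← h1, Function.update_eq_self]
    · constructor
      · rintro ⟨_, ⟨h1, rfl⟩, _, rfl, rfl⟩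
        refine ⟨h1, ?_⟩
        rw [h1, act_self, ← h1, Function.update_eq_self]
      · rintro ⟨h1, rfl⟩
        refine ⟨_, ⟨h1, rfl⟩, r', ?_, rfl⟩
        rw [h1, act_self, ← h1, Function.update_eq_self]
  constructor
  · rintro ⟨h, hr⟩
    refine ⟨h, ?_⟩
    have : A ++ (α, e) :: (α, !e) :: B = A ++ ([(α, e), (α, !e)] ++ B) := by simp
    rw [this, run_append] at hr
    obtain ⟨r, h1, hr⟩ := hr
    rw [run_append] at hr
    obtain ⟨r', h2, h3⟩ := hr
    obtain ⟨_, rfl⟩ := (key1 h r r').mp h2
    rw [run_append]
    exact ⟨_, h1, h3⟩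
  · rintro ⟨h, hr⟩
    rw [run_append] at hr
    obtain ⟨r, h1, h2⟩ := hr
    refine ⟨Function.update h α.name (r α.src), ?_⟩
    have : A ++ (α, e) :: (α, !e) :: B = A ++ ([(α, e), (α, !e)] ++ B) := by simp
    rw [this, run_append]
    refine ⟨r, ?_, ?_⟩
    · refine (run_congr _ _ A (fun x hx => ?_) s r).mp h1
      rw [Function.update_of_ne (hne x (by simp [hx]))]
    · rw [run_append]
      refine ⟨r, ?_, ?_⟩
      · rw [key1]
        exact ⟨by rw [Function.update_self], rfl⟩
      · refine (run_congr _ _ B (fun x hx => ?_) r s').mp h2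
        rw [Function.update_of_ne (hne x (by simp [hx]))]

/-- the two pairs of ends in a second Reidemeister move, for equal colours of the over-strand -/
theorem run_tails (h : ℕ → G) (α β : Arrow n) (hs : α.src = β.src) (s s' : Fin n → G) :
    Run h [(α, true), (β, true)] s s' ↔ (s α.src = h α.name ∧ h α.name = h β.name ∧ s' = s) := by
  simp only [Run, EStep, if_true, ← hs]
  constructor
  · rintro ⟨r, ⟨h1, rfl⟩, r', ⟨h2, rfl⟩, rfl⟩
    exact ⟨h1, h1.symm.trans h2, rfl⟩
  · rintro ⟨h1, h2, rfl⟩
    exact ⟨_, ⟨h1, rfl⟩, _, ⟨h1.trans h2, rfl⟩, rfl⟩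

theorem run_heads (h : ℕ → G) (α β : Arrow n) (ht : α.tgt = β.tgt) (hp : α.pos ≠ β.pos)
    (hh : h α.name = h β.name) (s s' : Fin n → G) :
    Run h [(α, false), (β, false)] s s' ↔ s' = s := by
  simp only [Run, EStep, if_false, Bool.false_eq_true, ← ht, ← hh]
  have hp' : β.pos = !α.pos := by
    cases h1 : α.pos <;> cases h2 : β.pos <;> simp_all
  constructor
  · rintro ⟨r, rfl, r', rfl, rfl⟩
    rw [Function.update_self, Function.update_idem, hp', act_not_act, Function.update_eq_self]
  · rintro rfl
    refine ⟨_, rfl, _, rfl, ?_⟩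
    rw [Function.update_self, Function.update_idem, hp', act_not_act, Function.update_eq_self]

theorem col_r2_aux (α β : Arrow n) (hs : α.src = β.src) (ht : α.tgt = β.tgt)
    (hp : α.pos ≠ β.pos) (P Q A B C : List (End n))
    (hPQ : (P = [(α, true), (β, true)] ∨ P = [(β, true), (α, true)]) ∧
        (Q = [(α, false), (β, false)] ∨ Q = [(β, false), (α, false)]) ∨
      (Q = [(α, true), (β, true)] ∨ Q = [(β, true), (α, true)]) ∧
        (P = [(α, false), (β, false)] ∨ P = [(β, false), (α, false)]))
    (hneα : ∀ x ∈ A ++ B ++ C, x.1.name ≠ α.name) (hneβ : ∀ x ∈ A ++ B ++ C, x.1.name ≠ β.name)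
    (s s' : Fin n → G) :
    Col G (A ++ (P ++ (B ++ (Q ++ C)))) s s' ↔ Col G (A ++ (B ++ C)) s s' := by
  have hT : ∀ (h : ℕ → G) (T : List (End n)),
      T = [(α, true), (β, true)] ∨ T = [(β, true), (α, true)] → ∀ r r' : Fin n → G,
      Run h T r r' ↔ (r α.src = h α.name ∧ h α.name = h β.name ∧ r' = r) := by
    intro h T hT r r'
    rcases hT with rfl | rfl
    · exact run_tails h α β hs r r'
    · rw [← swap_tails h α β r r']
      exact run_tails h α β hs r r'
  have hH : ∀ (h : ℕ → G) (T : List (End n)), h α.name = h β.name →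
      T = [(α, false), (β, false)] ∨ T = [(β, false), (α, false)] → ∀ r r' : Fin n → G,
      Run h T r r' ↔ r' = r := by
    intro h T hh hT r r'
    rcases hT with rfl | rfl
    · exact run_heads h α β ht hp hh r r'
    · exact run_heads h β α ht.symm (Ne.symm hp) hh.symm r r'
  simp only [List.mem_append] at hneα hneβ
  constructor
  · rintro ⟨h, hr⟩
    refine ⟨h, ?_⟩
    simp only [run_append] at hr ⊢
    obtain ⟨r1, h1, r2, h2, r3, h3, r4, h4, h5⟩ := hr
    rcases hPQ with ⟨hP, hQ⟩ | ⟨hQ, hP⟩
    · obtain ⟨_, hh, rfl⟩ := (hT h P hP _ _).mp h2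
      have := (hH h Q hh hQ _ _).mp h4
      subst this
      exact ⟨_, h1, _, h3, h5⟩
    · obtain ⟨_, hh, rfl⟩ := (hT h Q hQ _ _).mp h4
      have := (hH h P hh hP _ _).mp h2
      subst this
      exact ⟨_, h1, _, h3, h5⟩
  · rintro ⟨h, hr⟩
    simp only [run_append] at hr
    obtain ⟨r1, h1, r3, h3, h5⟩ := hr
    have hcongr : ∀ (g : G) (X : List (End n)), (∀ x ∈ X, x ∈ A ∨ x ∈ B ∨ x ∈ C) →
        ∀ r r' : Fin n → G, Run h X r r' →
          Run (Function.update (Function.update h α.name g) β.name g) X r r' := by
      intro g X hX r r' hr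
      refine (run_congr _ _ X (fun x hx => ?_) r r').mp hr
      have hx' := hX x hx
      rw [Function.update_of_ne (hneβ x (by tauto)), Function.update_of_ne (hneα x (by tauto))]
    have hhα : ∀ g : G, Function.update (Function.update h α.name g) β.name g α.name = g := by
      intro g
      by_cases hab : α.name = β.name
      · rw [hab, Function.update_self]
      · rw [Function.update_of_ne hab, Function.update_self]
    have hhβ : ∀ g : G, Function.update (Function.update h α.name g) β.name g β.name = g := by
      intro g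
      rw [Function.update_self]
    rcases hPQ with ⟨hP, hQ⟩ | ⟨hQ, hP⟩
    · refine ⟨Function.update (Function.update h α.name (r1 α.src)) β.name (r1 α.src), ?_⟩
      simp only [run_append]
      refine ⟨r1, hcongr _ A (fun x hx => Or.inl hx) _ _ h1, r1, ?_, r3,
        hcongr _ B (fun x hx => Or.inr (Or.inl hx)) _ _ h3, r3, ?_,
        hcongr _ C (fun x hx => Or.inr (Or.inr hx)) _ _ h5⟩
      · rw [hT _ P hP]
        exact ⟨(hhα _).symm, (hhα _).trans (hhβ _).symm, rfl⟩
      · rw [hH _ Q ((hhα _).trans (hhβ _).symm) hQ]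
    · refine ⟨Function.update (Function.update h α.name (r3 α.src)) β.name (r3 α.src), ?_⟩
      simp only [run_append]
      refine ⟨r1, hcongr _ A (fun x hx => Or.inl hx) _ _ h1, r1, ?_, r3,
        hcongr _ B (fun x hx => Or.inr (Or.inl hx)) _ _ h3, r3, ?_,
        hcongr _ C (fun x hx => Or.inr (Or.inr hx)) _ _ h5⟩
      · rw [hH _ P ((hhα _).trans (hhβ _).symm) hP]
      · rw [hT _ Q hQ]
        exact ⟨(hhα _).symm, (hhα _).trans (hhβ _).symm, rfl⟩

/-- the relation between the colours in a third Reidemeister move -/
theorem run_triangle (δ : Bool) (a b c : Arrow n) (hs : a.src = b.src) (hm : a.tgt = c.src)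
    (ht : b.tgt = c.tgt) (h h' : ℕ → G) (ha : h' a.name = h a.name) (hb : h' b.name = h b.name)
    (hab : h a.name = h b.name) (hc : h' c.name = act (!δ) (h a.name) (h c.name))
    (p : End n × End n) (hp : p ∈ triangle δ a b c) (s s' : Fin n → G) :
    Run h [p.1, p.2] s s' ↔ Run h' [p.2, p.1] s s' := by
  simp only [triangle, List.mem_cons, List.not_mem_nil, or_false] at hp
  rcases hp with rfl | rfl | rfl
  · -- top strand
    have key1 : Run h [(a, true), (b, true)] s s' ↔ Run h' [(a, true), (b, true)] s s' := by
      rw [run_tails _ a b hs, run_tails _ a b hs, ha, hb]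
    cases ((δ == a.pos) == (b.pos == c.pos))
    · simp only [order, if_false, Bool.false_eq_true]
      rw [← key1]
      exact swap_tails h b a s s'
    · simp only [order, if_true]
      rw [key1]
      exact swap_tails h' a b s s'
  · -- middle strand
    by_cases hδ : δ = a.pos
    · subst hδ
      simp only [beq_self_eq_true, order, if_true]
      simp only [Run, EStep, if_true, if_false, Bool.false_eq_true, ← hm, ha, hc]
      constructor
      · rintro ⟨r, rfl, r', ⟨h1, rfl⟩, rfl⟩
        rw [Function.update_self] at h1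
        refine ⟨s, ⟨?_, rfl⟩, _, rfl, rfl⟩
        rw [← h1, act_not_act]
      · rintro ⟨r, ⟨h1, rfl⟩, r', rfl, rfl⟩
        refine ⟨_, rfl, _, ⟨?_, rfl⟩, rfl⟩
        rw [Function.update_self, h1, act_act_not]
    · have hδ' : (δ == a.pos) = false := by simpa using hδ
      have hap : a.pos = !δ := by
        cases δ <;> cases h1 : a.pos <;> simp_all
      simp only [hδ', order, if_false, Bool.false_eq_true]
      simp only [Run, EStep, if_true, if_false, Bool.false_eq_true, ← hm, ha, hc, hap]
      constructor
      · rintro ⟨r, ⟨h1, rfl⟩, r', rfl, rfl⟩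
        refine ⟨_, rfl, _, ⟨?_, rfl⟩, rfl⟩
        rw [Function.update_self, h1]
      · rintro ⟨r, rfl, r', ⟨h1, rfl⟩, rfl⟩
        rw [Function.update_self] at h1
        refine ⟨s, ⟨?_, rfl⟩, _, rfl, rfl⟩
        have := congrArg (act δ (h a.name)) h1
        rwa [act_act_not, act_act_not] at this
  · -- bottom strand
    by_cases hδ : δ = b.pos
    · subst hδ
      simp only [beq_self_eq_true, order, if_true]
      simp only [Run, EStep, if_true, if_false, Bool.false_eq_true, ← ht, hb, hc, ← hab]
      have key2 : ∀ x : G, act c.pos (h c.name) (act b.pos (h a.name) x) =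
          act b.pos (h a.name) (act c.pos (act (!b.pos) (h a.name) (h c.name)) x) := by
        intro x
        rw [← act_act b.pos c.pos (h a.name), act_act_not]
      constructor
      · rintro ⟨r, rfl, r', rfl, rfl⟩
        refine ⟨_, rfl, _, rfl, ?_⟩
        simp only [Function.update_self, Function.update_idem, key2]
      · rintro ⟨r, rfl, r', rfl, rfl⟩
        refine ⟨_, rfl, _, rfl, ?_⟩
        simp only [Function.update_self, Function.update_idem, key2]
    · have hδ' : (δ == b.pos) = false := by simpa using hδ
      have hbp : b.pos = !δ := by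
        cases δ <;> cases h1 : b.pos <;> simp_all
      simp only [hδ', order, if_false, Bool.false_eq_true]
      simp only [Run, EStep, if_true, if_false, Bool.false_eq_true, ← ht, hb, hc, ← hab, hbp]
      constructor
      · rintro ⟨r, rfl, r', rfl, rfl⟩
        refine ⟨_, rfl, _, rfl, ?_⟩
        simp only [Function.update_self, Function.update_idem, act_act]
      · rintro ⟨r, rfl, r', rfl, rfl⟩
        refine ⟨_, rfl, _, rfl, ?_⟩
        simp only [Function.update_self, Function.update_idem, act_act]

/-- the ends in a third Reidemeister move -/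
theorem triangle_ends (δ : Bool) (a b c : Arrow n) (p q r : End n × End n)
    (h : [p, q, r].Perm (triangle δ a b c)) :
    [p.1, p.2, q.1, q.2, r.1, r.2].Perm
      [(a, true), (b, true), (a, false), (c, true), (b, false), (c, false)] := by
  have h1 := h.flatMap_right (fun s : End n × End n => [s.1, s.2])
  simp only [List.flatMap_cons, List.flatMap_nil, List.append_nil, triangle, List.cons_append,
    List.nil_append] at h1
  refine h1.trans ?_
  have ho : ∀ (f : Bool) (x y : End n), [(order f x y).1, (order f x y).2].Perm [x, y] := by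
    intro f x y
    cases f
    · exact List.Perm.swap _ _ _
    · exact List.Perm.refl _
  have h2 := (ho ((δ == a.pos) == (b.pos == c.pos)) (a, true) (b, true)).append
    ((ho (δ == a.pos) (a, false) (c, true)).append (ho (δ == b.pos) (b, false) (c, false)))
  simpa using h2

theorem col_r3 (δ : Bool) (a b c : Arrow n) (hs : a.src = b.src) (hm : a.tgt = c.src)
    (ht : b.tgt = c.tgt) (p q r : End n × End n) (hT : [p, q, r].Perm (triangle δ a b c))
    (A B C D : List (End n))
    (hv : ((A ++ p.1 :: p.2 :: B ++ q.1 :: q.2 :: C ++ r.1 :: r.2 :: D).map key).Nodup)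
    (s s' : Fin n → G)
    (hr : Col G (A ++ p.1 :: p.2 :: B ++ q.1 :: q.2 :: C ++ r.1 :: r.2 :: D) s s') :
    Col G (A ++ p.2 :: p.1 :: B ++ q.2 :: q.1 :: C ++ r.2 :: r.1 :: D) s s' := by
  have hperm : (A ++ p.1 :: p.2 :: B ++ q.1 :: q.2 :: C ++ r.1 :: r.2 :: D).Perm
      ([(a, true), (b, true), (a, false), (c, true), (b, false), (c, false)] ++
        (A ++ B ++ C ++ D)) := by
    refine List.Perm.trans ?_ ((triangle_ends δ a b c p q r hT).append_right _)
    rw [List.perm_iff_count]
    intro x
    simp only [List.count_append, List.count_cons, List.count_nil]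
    omega
  have hrest : ∀ x ∈ A ++ B ++ C ++ D, x.1.name ≠ c.name := by
    have := names_ne (α := c) (e := true)
      (rest := [(a, true), (b, true), (a, false), (b, false)] ++ (A ++ B ++ C ++ D)) hv (by
        refine hperm.trans ?_
        rw [List.perm_iff_count]
        intro x
        simp only [List.count_append, List.count_cons, List.count_nil, Bool.not_true]
        omega)
    intro x hx
    exact this x (List.mem_append_right _ hx)
  have hac : a.name ≠ c.name := by
    have := names_ne (α := c) (e := true)
      (rest := [(a, true), (b, true), (a, false), (b, false)] ++ (A ++ B ++ C ++ D)) hv (by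
        refine hperm.trans ?_
        rw [List.perm_iff_count]
        intro x
        simp only [List.count_append, List.count_cons, List.count_nil, Bool.not_true]
        omega)
    exact this (a, true) (by simp)
  have hbc : b.name ≠ c.name := by
    have := names_ne (α := c) (e := true)
      (rest := [(a, true), (b, true), (a, false), (b, false)] ++ (A ++ B ++ C ++ D)) hv (by
        refine hperm.trans ?_
        rw [List.perm_iff_count]
        intro x
        simp only [List.count_append, List.count_cons, List.count_nil, Bool.not_true]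
        omega)
    exact this (b, true) (by simp)
  obtain ⟨h, hr⟩ := hr
  have e1 : A ++ p.1 :: p.2 :: B ++ q.1 :: q.2 :: C ++ r.1 :: r.2 :: D =
      A ++ ([p.1, p.2] ++ (B ++ ([q.1, q.2] ++ (C ++ ([r.1, r.2] ++ D))))) := by simp
  have e2 : A ++ p.2 :: p.1 :: B ++ q.2 :: q.1 :: C ++ r.2 :: r.1 :: D =
      A ++ ([p.2, p.1] ++ (B ++ ([q.2, q.1] ++ (C ++ ([r.2, r.1] ++ D))))) := by simp
  rw [e1] at hr
  rw [e2]
  simp only [run_append] at hr
  obtain ⟨s1, h1, s2, h2, s3, h3, s4, h4, s5, h5, s6, h6, h7⟩ := hr
  have hab : h a.name = h b.name := by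
    have hpair : ∀ (u : End n × End n) (t t' : Fin n → G),
        u = order ((δ == a.pos) == (b.pos == c.pos)) (a, true) (b, true) →
        Run h [u.1, u.2] t t' → h a.name = h b.name := by
      intro u t t' hu hr
      rw [hu] at hr
      generalize ((δ == a.pos) == (b.pos == c.pos)) = f at hr
      cases f
      · exact ((run_tails h b a hs.symm t t').mp hr).2.1.symm
      · exact ((run_tails h a b hs t t').mp hr).2.1
    have hmem : order ((δ == a.pos) == (b.pos == c.pos)) (a, true) (b, true) ∈ [p, q, r] := by
      rw [hT.mem_iff]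
      simp [triangle]
    simp only [List.mem_cons, List.not_mem_nil, or_false] at hmem
    rcases hmem with hm' | hm' | hm'
    · exact hpair p _ _ hm'.symm h2
    · exact hpair q _ _ hm'.symm h4
    · exact hpair r _ _ hm'.symm h6
  have hcongr : ∀ X : List (End n), (∀ x ∈ X, x ∈ A ++ B ++ C ++ D) → ∀ t t' : Fin n → G,
      Run h X t t' →
        Run (Function.update h c.name (act (!δ) (h a.name) (h c.name))) X t t' := by
    intro X hX t t' hr
    refine (run_congr _ _ X (fun x hx => ?_) t t').mp hr
    rw [Function.update_of_ne (hrest x (hX x hx))]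
  have hswap : ∀ u ∈ [p, q, r], ∀ t t' : Fin n → G, Run h [u.1, u.2] t t' →
      Run (Function.update h c.name (act (!δ) (h a.name) (h c.name))) [u.2, u.1] t t' := by
    intro u hu t t' hr
    refine (run_triangle δ a b c hs hm ht h _ ?_ ?_ hab ?_ u (hT.mem_iff.mp hu) t t').mp hr
    · rw [Function.update_of_ne hac]
    · rw [Function.update_of_ne hbc]
    · rw [Function.update_self]
  refine ⟨Function.update h c.name (act (!δ) (h a.name) (h c.name)), ?_⟩
  simp only [run_append]
  refine ⟨s1, hcongr A (fun x hx => by simp [hx]) _ _ h1, s2, hswap p (by simp) _ _ h2, s3,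
    hcongr B (fun x hx => by simp [hx]) _ _ h3, s4, hswap q (by simp) _ _ h4, s5,
    hcongr C (fun x hx => by simp [hx]) _ _ h5, s6, hswap r (by simp) _ _ h6, 
    hcongr D (fun x hx => by simp [hx]) _ _ h7⟩

end Pool.Agent.R810.DF
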