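import Mathlib
import Pool.Agent.R810.DF.Inv2

set_option autoImplicit false

namespace Pool.Agent.R810.DF

open Pool.Agent.W612.WSL

variable {n : ℕ} {G : Type} [Group G]

theorem triangle_not (δ : Bool) (a b c : Arrow n) :
    triangle (!δ) a b c = (triangle δ a b c).map Prod.swap := by
  have h1 : ∀ (f : Bool) (x y : End n), (order f x y).swap = order (!f) x y := by
    intro f x y
    cases f <;> rfl
  simp only [triangle, List.map_cons, List.map_nil, h1]
  generalize a.pos = f
  generalize b.pos = g
  generalize c.pos = k
  cases δ <;> cases f <;> cases g <;> cases k <;> rfl

theorem col_move {v w : List (End n)} (hv : IsGauss v) (hw : IsGauss w)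
    (h : Reidemeister v w ∨ OvercrossingsCommute v w) (s s' : Fin n → G) :
    Col G v s s' ↔ Col G w s s' := by
  rcases h with h | h
  · cases h with
    | rename g hg w =>
      constructor
      · rintro ⟨h, hr⟩
        refine ⟨h ∘ Function.invFun g, ?_⟩
        rw [run_rename]
        have : (h ∘ Function.invFun g) ∘ g = h := by
          funext k
          simp [Function.leftInverse_invFun hg k]
        rw [this]
        exact hr
      · rintro ⟨h, hr⟩
        rw [run_rename] at hr
        exact ⟨_, hr⟩
    | far x y h A B =>
      refine col_of_same (fun k => ?_) s s'
      have := same_context (swap_far k x y h) A B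
      simpa using this
    | r1 α h e A B => exact col_r1 α h e A B hv.1 s s'
    | r2_parallel α β hs ht hp e A B C =>
      have hneα := names_ne (rest := (β, e) :: (β, !e) :: (A ++ B ++ C)) (α := α) (e := e) hv.1 (by
        rw [List.perm_iff_count]
        intro x
        simp only [List.count_append, List.count_cons]
        omega)
      have hneβ := names_ne (rest := (α, e) :: (α, !e) :: (A ++ B ++ C)) (α := β) (e := e) hv.1 (by
        rw [List.perm_iff_count]
        intro x
        simp only [List.count_append, List.count_cons]
        omega)
      have := col_r2_aux (G := G) α β hs ht hp [(α, e), (β, e)] [(α, !e), (β, !e)] A B C (by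
        cases e
        · right; exact ⟨Or.inl rfl, Or.inl rfl⟩
        · left; exact ⟨Or.inl rfl, Or.inl rfl⟩)
        (fun x hx => hneα x (by simp only [List.mem_cons]; tauto))
        (fun x hx => hneβ x (by simp only [List.mem_cons]; tauto)) s s'
      simpa using this
    | r2_opposite α β hs ht hp e A B C =>
      have hneα := names_ne (rest := (β, e) :: (β, !e) :: (A ++ B ++ C)) (α := α) (e := e) hv.1 (by
        rw [List.perm_iff_count]
        intro x
        simp only [List.count_append, List.count_cons]
        omega)
      have hneβ := names_ne (rest := (α, e) :: (α, !e) :: (A ++ B ++ C)) (α := β) (e := e) hv.1 (by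
        rw [List.perm_iff_count]
        intro x
        simp only [List.count_append, List.count_cons]
        omega)
      have := col_r2_aux (G := G) α β hs ht hp [(α, e), (β, e)] [(β, !e), (α, !e)] A B C (by
        cases e
        · right; exact ⟨Or.inr rfl, Or.inl rfl⟩
        · left; exact ⟨Or.inl rfl, Or.inr rfl⟩)
        (fun x hx => hneα x (by simp only [List.mem_cons]; tauto))
        (fun x hx => hneβ x (by simp only [List.mem_cons]; tauto)) s s'
      simpa using this
    | r3 δ a b c hs hm ht p q r hT A B C D =>
      constructor
      · exact col_r3 δ a b c hs hm ht p q r hT A B C D hv.1 s s'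
      · have hT' : [p.swap, q.swap, r.swap].Perm (triangle (!δ) a b c) := by
          rw [triangle_not]
          exact hT.map Prod.swap
        exact col_r3 (!δ) a b c hs hm ht p.swap q.swap r.swap hT' A B C D hw.1 s s'
  · cases h with
    | mk α β h A B =>
      refine col_of_same (fun k => ?_) s s'
      have := same_context (swap_tails k α β) A B
      simpa using this

/-- The relation between the colours at the bottom and at the top is an invariant of welded string
links. -/
theorem col_wsl {v w : Diagram n}
    (h : (Quot.mk _ v : WSL n) = Quot.mk _ w) (s s' : Fin n → G) :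
    Col G v.1 s s' ↔ Col G w.1 s s' := by
  have h1 := Quot.eqvGen_exact h
  clear h
  induction h1 with
  | rel x y h => exact col_move x.2 y.2 h s s'
  | refl x => exact Iff.rfl
  | symm x y _ ih => exact ih.symm
  | trans x y z _ _ ih1 ih2 => exact ih1.trans ih2

end Pool.Agent.R810.DF
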