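import Mathlib
import Pool.Agent.R810.DF.Inv3

/-!
# The words `a b b a` and `b a a b` represent the same virtual string link up to self-crossing changes

Here `a` is an arrow from the first to the second strand, `b` is an arrow from the second to the
first strand.  The file contains an explicit sequence of moves.
-/

set_option autoImplicit false

namespace Pool.Agent.R810.DF

open Pool.Agent.W612.WSL

instance (w : List (End 2)) : Decidable (IsGauss w) := by
  unfold IsGauss
  infer_instance

/-- two Gauss diagrams which are related by one of the moves of `vSL_2^sc` -/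
def MV (v w : List (End 2)) : Prop :=
  IsGauss v ∧ IsGauss w ∧ (Reidemeister v w ∨ SelfCrossingChange v w)

/-- the equivalence relation generated by `MV` -/
def EV : List (End 2) → List (End 2) → Prop := Relation.EqvGen MV

theorem EV.trans' {u v w : List (End 2)} (h1 : EV u v) (h2 : EV v w) : EV u w :=
  Relation.EqvGen.trans _ _ _ h1 h2

theorem EV.gauss {v w : List (End 2)} (h : EV v w) : IsGauss v ↔ IsGauss w := by
  induction h with
  | rel x y h => exact ⟨fun _ => h.2.1, fun _ => h.1⟩
  | refl x => exact Iff.rfl
  | symm x y _ ih => exact ih.symm
  | trans x y z _ _ ih1 ih2 => exact ih1.trans ih2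

theorem EV.quot {v w : List (End 2)} (h : EV v w) (hv : IsGauss v) (hw : IsGauss w) :
    (Quot.mk _ ⟨v, hv⟩ : VSLsc 2) = Quot.mk _ ⟨w, hw⟩ := by
  induction h with
  | rel x y h => exact Quot.sound h.2.2
  | refl x => rfl
  | symm x y _ ih => exact (ih hw hv).symm
  | trans x y z h1 h2 ih1 ih2 =>
    have hy : IsGauss y := (EV.gauss h1).mp hv
    exact (ih1 hv hy).trans (ih2 hy hw)

theorem EV.of {v w : List (End 2)} (hv : IsGauss v) (hw : IsGauss w)
    (h : Reidemeister v w ∨ SelfCrossingChange v w) : EV v w :=
  Relation.EqvGen.rel _ _ ⟨hv, hw, h⟩

/-- neighbours on different strands -/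
theorem EV.far (x y : End 2) (h : strand x ≠ strand y) (A B : List (End 2))
    (hv : IsGauss (A ++ x :: y :: B)) (hw : IsGauss (A ++ y :: x :: B)) :
    EV (A ++ x :: y :: B) (A ++ y :: x :: B) :=
  EV.of hv hw (Or.inl (Reidemeister.far x y h A B))

theorem gauss_perm {v w : List (End 2)} (h : v.Perm w) (hv : IsGauss v) : IsGauss w := by
  refine ⟨(h.map _).nodup_iff.mp hv.1, fun x hx => ?_⟩
  exact h.mem_iff.mp (hv.2 x (h.mem_iff.mpr hx))

theorem EV.pass (x : End 2) (hx : strand x = 1) (B : List (End 2)) :
    ∀ (u A : List (End 2)), (∀ y ∈ u, strand y = 0) → IsGauss (A ++ x :: (u ++ B)) →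
      EV (A ++ x :: (u ++ B)) (A ++ (u ++ x :: B)) := by
  intro u
  induction u with
  | nil =>
    intro A _ _
    exact Relation.EqvGen.refl _
  | cons y u ih =>
    intro A hu h
    have h1 : IsGauss (A ++ y :: x :: (u ++ B)) :=
      gauss_perm (List.Perm.append_left _ (List.Perm.swap _ _ _)) h
    have h2 : EV (A ++ x :: y :: (u ++ B)) (A ++ y :: x :: (u ++ B)) :=
      EV.far x y (by rw [hx, hu y (by simp)]; decide) _ _ h h1
    have h3 := ih (A ++ [y]) (fun z hz => hu z (by simp [hz])) (by simpa using h1)
    refine EV.trans' h2 ?_
    simpa using h3

/-- the ends on the first strand can be put first -/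
theorem EV.sort (w : List (End 2)) : ∀ A : List (End 2), IsGauss (A ++ w) →
    EV (A ++ w) (A ++ (w.filter (fun x => strand x = 0) ++ w.filter (fun x => strand x = 1))) := by
  induction w with
  | nil =>
    intro A _
    exact Relation.EqvGen.refl _
  | cons x w ih =>
    intro A h
    have h1 := ih (A ++ [x]) (by simpa using h)
    have h1' : EV (A ++ x :: w)
        (A ++ x :: (w.filter (fun x => strand x = 0) ++ w.filter (fun x => strand x = 1))) := by
      simpa using h1
    by_cases hx : strand x = 0
    · have hx1 : ¬ strand x = 1 := by rw [hx]; decide
      simpa [List.filter_cons, hx, hx1] using h1'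
    · have hx1 : strand x = 1 := by omega
      refine EV.trans' h1' ?_
      have h2 := EV.pass x hx1 (w.filter (fun x => strand x = 1)) (w.filter (fun x => strand x = 0))
        A (fun y hy => by simpa using (List.mem_filter.mp hy).2) ((EV.gauss h1').mp h)
      simpa [List.filter_cons, hx, hx1] using h2

/-- an arrow -/
def ax : Arrow 2 := ⟨0, 0, 1, true⟩

/-- an arrow -/
def ay : Arrow 2 := ⟨1, 1, 0, true⟩

/-- an arrow -/
def az : Arrow 2 := ⟨2, 1, 0, true⟩

/-- an arrow -/
def au : Arrow 2 := ⟨3, 0, 1, true⟩

/-- an arrow -/
def aY : Arrow 2 := ⟨4, 1, 0, false⟩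

/-- an arrow -/
def aX : Arrow 2 := ⟨5, 0, 1, false⟩

/-- an arrow -/
def aU : Arrow 2 := ⟨6, 0, 1, false⟩

/-- an arrow -/
def aZ : Arrow 2 := ⟨7, 1, 0, false⟩

/-- an arrow -/
def ac : Arrow 2 := ⟨8, 0, 0, true⟩

/-- an arrow -/
def ad : Arrow 2 := ⟨9, 0, 0, false⟩

/-- an arrow -/
def ae : Arrow 2 := ⟨10, 1, 1, true⟩

/-- an arrow -/
def af : Arrow 2 := ⟨11, 1, 1, false⟩

/-- an arrow -/
def adr : Arrow 2 := ad.rev

/-- an arrow -/
def afr : Arrow 2 := af.rev

/-- state 0 -/
def st0 : List (End 2) := [(ax, true), (ay, false), (az, false), (au, true), (aY, false), (aX, true), (aU, true), (aZ, false), (ax, false), (ay, true), (az, true), (au, false), (aY, true), (aX, false), (aU, false), (aZ, true)]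

/-- state 1 -/
def st1 : List (End 2) := [(ax, true), (ay, false), (ac, true), (ad, true), (az, false), (ac, false), (ad, false), (au, true), (aY, false), (aX, true), (aU, true), (aZ, false), (ax, false), (ay, true), (az, true), (au, false), (aY, true), (aX, false), (aU, false), (aZ, true)]

/-- state 2 -/
def st2 : List (End 2) := [(ax, true), (ac, true), (ay, false), (ad, true), (ac, false), (az, false), (ad, false), (au, true), (aY, false), (aX, true), (aU, true), (aZ, false), (ax, false), (az, true), (ay, true), (au, false), (aY, true), (aX, false), (aU, false), (aZ, true)]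

/-- state 3 -/
def st3 : List (End 2) := [(ac, true), (ax, true), (ay, false), (ad, true), (az, false), (ac, false), (ad, false), (au, true), (aY, false), (aX, true), (aU, true), (aZ, false), (az, true), (ax, false), (ay, true), (au, false), (aY, true), (aX, false), (aU, false), (aZ, true)]

/-- state 4 -/
def st4 : List (End 2) := [(ac, true), (ax, true), (ay, false), (adr, false), (az, false), (ac, false), (adr, true), (au, true), (aY, false), (aX, true), (aU, true), (aZ, false), (az, true), (ax, false), (ay, true), (au, false), (aY, true), (aX, false), (aU, false), (aZ, true)]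

/-- state 5 -/
def st5 : List (End 2) := [(ac, true), (ax, true), (adr, false), (ay, false), (az, false), (ac, false), (au, true), (adr, true), (aY, false), (aX, true), (aU, true), (aZ, false), (az, true), (ax, false), (au, false), (ay, true), (aY, true), (aX, false), (aU, false), (aZ, true)]

/-- state 6 -/
def st6 : List (End 2) := [(ax, true), (ac, true), (adr, false), (ay, false), (az, false), (au, true), (ac, false), (adr, true), (aY, false), (aX, true), (aU, true), (aZ, false), (az, true), (au, false), (ax, false), (ay, true), (aY, true), (aX, false), (aU, false), (aZ, true)]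

/-- state 7 -/
def st7 : List (End 2) := [(ax, true), (ac, true), (ad, true), (ay, false), (az, false), (au, true), (ac, false), (ad, false), (aY, false), (aX, true), (aU, true), (aZ, false), (az, true), (au, false), (ax, false), (ay, true), (aY, true), (aX, false), (aU, false), (aZ, true)]

/-- state 8 -/
def st8 : List (End 2) := [(ax, true), (ay, false), (az, false), (au, true), (aY, false), (aX, true), (aU, true), (aZ, false), (az, true), (au, false), (ax, false), (ay, true), (aY, true), (aX, false), (aU, false), (aZ, true)]

/-- state 9 -/
def st9 : List (End 2) := [(ax, true), (ay, false), (az, false), (au, true), (aY, false), (aX, true), (aU, true), (aZ, false), (az, true), (ae, true), (af, true), (au, false), (ax, false), (ay, true), (ae, false), (af, false), (aY, true), (aX, false), (aU, false), (aZ, true)]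

/-- state 10 -/
def st10 : List (End 2) := [(ax, true), (az, false), (ay, false), (au, true), (aY, false), (aX, true), (aU, true), (aZ, false), (ae, true), (az, true), (af, true), (au, false), (ax, false), (ae, false), (ay, true), (af, false), (aY, true), (aX, false), (aU, false), (aZ, true)]

/-- state 11 -/
def st11 : List (End 2) := [(az, false), (ax, true), (ay, false), (au, true), (aY, false), (aX, true), (aU, true), (aZ, false), (az, true), (ae, true), (af, true), (au, false), (ae, false), (ax, false), (ay, true), (af, false), (aY, true), (aX, false), (aU, false), (aZ, true)]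

/-- state 12 -/
def st12 : List (End 2) := [(az, false), (ax, true), (ay, false), (au, true), (aY, false), (aX, true), (aU, true), (aZ, false), (az, true), (ae, true), (afr, false), (au, false), (ae, false), (ax, false), (ay, true), (afr, true), (aY, true), (aX, false), (aU, false), (aZ, true)]

/-- state 13 -/
def st13 : List (End 2) := [(az, false), (ax, true), (au, true), (ay, false), (aY, false), (aX, true), (aU, true), (aZ, false), (az, true), (ae, true), (au, false), (afr, false), (ae, false), (ax, false), (afr, true), (ay, true), (aY, true), (aX, false), (aU, false), (aZ, true)]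

/-- state 14 -/
def st14 : List (End 2) := [(az, false), (au, true), (ax, true), (ay, false), (aY, false), (aX, true), (aU, true), (aZ, false), (az, true), (ae, true), (afr, false), (au, false), (ae, false), (afr, true), (ax, false), (ay, true), (aY, true), (aX, false), (aU, false), (aZ, true)]

/-- state 15 -/
def st15 : List (End 2) := [(az, false), (au, true), (ax, true), (ay, false), (aY, false), (aX, true), (aU, true), (aZ, false), (az, true), (ae, true), (af, true), (au, false), (ae, false), (af, false), (ax, false), (ay, true), (aY, true), (aX, false), (aU, false), (aZ, true)]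

/-- state 16 -/
def st16 : List (End 2) := [(az, false), (au, true), (ax, true), (ay, false), (aY, false), (aX, true), (aU, true), (aZ, false), (az, true), (au, false), (ax, false), (ay, true), (aY, true), (aX, false), (aU, false), (aZ, true)]

/-- state 17 -/
def st17 : List (End 2) := [(az, false), (au, true), (ax, true), (aX, true), (aU, true), (aZ, false), (az, true), (au, false), (ax, false), (aX, false), (aU, false), (aZ, true)]

/-- state 18 -/
def st18 : List (End 2) := [(az, false), (au, true), (aU, true), (aZ, false), (az, true), (au, false), (aU, false), (aZ, true)]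

/-- state 19 -/
def st19 : List (End 2) := [(az, false), (aZ, false), (az, true), (aZ, true)]

/-- state 20 -/
def st20 : List (End 2) := []

theorem step0 : EV st0 st1 :=
  Relation.EqvGen.symm _ _ (EV.of (by decide) (by decide) (Or.inl (Reidemeister.r2_parallel ac ad rfl rfl (by decide) true
    [(ax, true), (ay, false)]
    [(az, false)]
    [(au, true), (aY, false), (aX, true), (aU, true), (aZ, false), (ax, false), (ay, true), (az, true), (au, false), (aY, true), (aX, false), (aU, false), (aZ, true)])))

theorem step1 : EV st1 st2 :=
  EV.of (by decide) (by decide) (Or.inl (Reidemeister.r3 true ay az ac rfl rfl rfl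
    ((ay, false), (ac, true)) ((az, false), (ac, false)) ((ay, true), (az, true)) (by decide)
    [(ax, true)]
    [(ad, true)]
    [(ad, false), (au, true), (aY, false), (aX, true), (aU, true), (aZ, false), (ax, false)]
    [(au, false), (aY, true), (aX, false), (aU, false), (aZ, true)]))

theorem step2 : EV st2 st3 :=
  EV.of (by decide) (by decide) (Or.inl (Reidemeister.r3 true ax ac az rfl rfl rfl
    ((ax, true), (ac, true)) ((ac, false), (az, false)) ((ax, false), (az, true)) (by decide)
    []
    [(ay, false), (ad, true)]
    [(ad, false), (au, true), (aY, false), (aX, true), (aU, true), (aZ, false)]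
    [(ay, true), (au, false), (aY, true), (aX, false), (aU, false), (aZ, true)]))

theorem step3 : EV st3 st4 :=
  EV.of (by decide) (by decide) (Or.inr (SelfCrossingChange.mk ad rfl true
    [(ac, true), (ax, true), (ay, false)]
    [(az, false), (ac, false)]
    [(au, true), (aY, false), (aX, true), (aU, true), (aZ, false), (az, true), (ax, false), (ay, true), (au, false), (aY, true), (aX, false), (aU, false), (aZ, true)]))

theorem step4 : EV st4 st5 :=
  EV.of (by decide) (by decide) (Or.inl (Reidemeister.r3 false au adr ay rfl rfl rfl
    ((ay, false), (adr, false)) ((adr, true), (au, true)) ((ay, true), (au, false)) (by decide)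
    [(ac, true), (ax, true)]
    [(az, false), (ac, false)]
    [(aY, false), (aX, true), (aU, true), (aZ, false), (az, true), (ax, false)]
    [(aY, true), (aX, false), (aU, false), (aZ, true)]))

theorem step5 : EV st5 st6 :=
  EV.of (by decide) (by decide) (Or.inl (Reidemeister.r3 true ac ax au rfl rfl rfl
    ((ac, true), (ax, true)) ((ac, false), (au, true)) ((ax, false), (au, false)) (by decide)
    []
    [(adr, false), (ay, false), (az, false)]
    [(adr, true), (aY, false), (aX, true), (aU, true), (aZ, false), (az, true)]
    [(ay, true), (aY, true), (aX, false), (aU, false), (aZ, true)]))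

theorem step6 : EV st6 st7 :=
  EV.of (by decide) (by decide) (Or.inr (SelfCrossingChange.mk adr rfl false
    [(ax, true), (ac, true)]
    [(ay, false), (az, false), (au, true), (ac, false)]
    [(aY, false), (aX, true), (aU, true), (aZ, false), (az, true), (au, false), (ax, false), (ay, true), (aY, true), (aX, false), (aU, false), (aZ, true)]))

theorem step7 : EV st7 st8 :=
  EV.of (by decide) (by decide) (Or.inl (Reidemeister.r2_parallel ac ad rfl rfl (by decide) true
    [(ax, true)]
    [(ay, false), (az, false), (au, true)]
    [(aY, false), (aX, true), (aU, true), (aZ, false), (az, true), (au, false), (ax, false), (ay, true), (aY, true), (aX, false), (aU, false), (aZ, true)]))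

theorem step8 : EV st8 st9 :=
  Relation.EqvGen.symm _ _ (EV.of (by decide) (by decide) (Or.inl (Reidemeister.r2_parallel ae af rfl rfl (by decide) true
    [(ax, true), (ay, false), (az, false), (au, true), (aY, false), (aX, true), (aU, true), (aZ, false), (az, true)]
    [(au, false), (ax, false), (ay, true)]
    [(aY, true), (aX, false), (aU, false), (aZ, true)])))

theorem step9 : EV st9 st10 :=
  EV.of (by decide) (by decide) (Or.inl (Reidemeister.r3 false ae az ay rfl rfl rfl
    ((ay, false), (az, false)) ((az, true), (ae, true)) ((ay, true), (ae, false)) (by decide)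
    [(ax, true)]
    [(au, true), (aY, false), (aX, true), (aU, true), (aZ, false)]
    [(af, true), (au, false), (ax, false)]
    [(af, false), (aY, true), (aX, false), (aU, false), (aZ, true)]))

theorem step10 : EV st10 st11 :=
  EV.of (by decide) (by decide) (Or.inl (Reidemeister.r3 false az ae ax rfl rfl rfl
    ((ax, true), (az, false)) ((ae, true), (az, true)) ((ax, false), (ae, false)) (by decide)
    []
    [(ay, false), (au, true), (aY, false), (aX, true), (aU, true), (aZ, false)]
    [(af, true), (au, false)]
    [(ay, true), (af, false), (aY, true), (aX, false), (aU, false), (aZ, true)]))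

theorem step11 : EV st11 st12 :=
  EV.of (by decide) (by decide) (Or.inr (SelfCrossingChange.mk af rfl true
    [(az, false), (ax, true), (ay, false), (au, true), (aY, false), (aX, true), (aU, true), (aZ, false), (az, true), (ae, true)]
    [(au, false), (ae, false), (ax, false), (ay, true)]
    [(aY, true), (aX, false), (aU, false), (aZ, true)]))

theorem step12 : EV st12 st13 :=
  EV.of (by decide) (by decide) (Or.inl (Reidemeister.r3 true ay afr au rfl rfl rfl
    ((ay, false), (au, true)) ((afr, false), (au, false)) ((ay, true), (afr, true)) (by decide)
    [(az, false), (ax, true)]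
    [(aY, false), (aX, true), (aU, true), (aZ, false), (az, true), (ae, true)]
    [(ae, false), (ax, false)]
    [(aY, true), (aX, false), (aU, false), (aZ, true)]))

theorem step13 : EV st13 st14 :=
  EV.of (by decide) (by decide) (Or.inl (Reidemeister.r3 true ax au afr rfl rfl rfl
    ((ax, true), (au, true)) ((au, false), (afr, false)) ((ax, false), (afr, true)) (by decide)
    [(az, false)]
    [(ay, false), (aY, false), (aX, true), (aU, true), (aZ, false), (az, true), (ae, true)]
    [(ae, false)]
    [(ay, true), (aY, true), (aX, false), (aU, false), (aZ, true)]))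

theorem step14 : EV st14 st15 :=
  EV.of (by decide) (by decide) (Or.inr (SelfCrossingChange.mk afr rfl false
    [(az, false), (au, true), (ax, true), (ay, false), (aY, false), (aX, true), (aU, true), (aZ, false), (az, true), (ae, true)]
    [(au, false), (ae, false)]
    [(ax, false), (ay, true), (aY, true), (aX, false), (aU, false), (aZ, true)]))

theorem step15 : EV st15 st16 :=
  EV.of (by decide) (by decide) (Or.inl (Reidemeister.r2_parallel ae af rfl rfl (by decide) true
    [(az, false), (au, true), (ax, true), (ay, false), (aY, false), (aX, true), (aU, true), (aZ, false), (az, true)]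
    [(au, false)]
    [(ax, false), (ay, true), (aY, true), (aX, false), (aU, false), (aZ, true)]))

theorem step16 : EV st16 st17 :=
  EV.of (by decide) (by decide) (Or.inl (Reidemeister.r2_parallel ay aY rfl rfl (by decide) false
    [(az, false), (au, true), (ax, true)]
    [(aX, true), (aU, true), (aZ, false), (az, true), (au, false), (ax, false)]
    [(aX, false), (aU, false), (aZ, true)]))

theorem step17 : EV st17 st18 :=
  EV.of (by decide) (by decide) (Or.inl (Reidemeister.r2_parallel ax aX rfl rfl (by decide) true
    [(az, false), (au, true)]
    [(aU, true), (aZ, false), (az, true), (au, false)]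
    [(aU, false), (aZ, true)]))

theorem step18 : EV st18 st19 :=
  EV.of (by decide) (by decide) (Or.inl (Reidemeister.r2_parallel au aU rfl rfl (by decide) true
    [(az, false)]
    [(aZ, false), (az, true)]
    [(aZ, true)]))

theorem step19 : EV st19 st20 :=
  EV.of (by decide) (by decide) (Or.inl (Reidemeister.r2_parallel az aZ rfl rfl (by decide) false
    []
    []
    []))

theorem chain : EV st0 [] := by

  have h := (Relation.EqvGen.trans _ _ _ step0
    (Relation.EqvGen.trans _ _ _ step1
    (Relation.EqvGen.trans _ _ _ step2
    (Relation.EqvGen.trans _ _ _ step3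
    (Relation.EqvGen.trans _ _ _ step4
    (Relation.EqvGen.trans _ _ _ step5
    (Relation.EqvGen.trans _ _ _ step6
    (Relation.EqvGen.trans _ _ _ step7
    (Relation.EqvGen.trans _ _ _ step8
    (Relation.EqvGen.trans _ _ _ step9
    (Relation.EqvGen.trans _ _ _ step10
    (Relation.EqvGen.trans _ _ _ step11
    (Relation.EqvGen.trans _ _ _ step12
    (Relation.EqvGen.trans _ _ _ step13
    (Relation.EqvGen.trans _ _ _ step14
    (Relation.EqvGen.trans _ _ _ step15
    (Relation.EqvGen.trans _ _ _ step16
    (Relation.EqvGen.trans _ _ _ step17
    (Relation.EqvGen.trans _ _ _ step18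
    step19)))))))))))))))))))
  exact h

/-- The diagram of the virtual pure braid `a b b a (b a a b)⁻¹`. -/
def word : List (End 2) :=
  [ax, ay, az, au, aY, aX, aU, aZ].flatMap fun α => [(α, true), (α, false)]

theorem word_eq : EV word [] := by
  have h := EV.sort word [] (by decide)
  exact Relation.EqvGen.trans _ _ _ h chain

end Pool.Agent.R810.DF
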