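import Mathlib
import Pool.Agent.R810.DF.Chain

set_option autoImplicit false

namespace Pool.Agent.R810.DF

open Pool.Agent.W612.WSL

variable {n : ℕ} {G : Type} [Group G]

/-- the action of a monotone diagram on the colours -/
def mono (l : List (Arrow n)) (s : Fin n → G) : Fin n → G :=
  l.foldl (fun s α => Function.update s α.tgt (act α.pos (s α.src) (s α.tgt))) s

theorem col_mono (l : List (Arrow n)) (hl : (l.map Arrow.name).Nodup) :
    ∀ s : Fin n → G, Col G (l.flatMap fun α => [(α, true), (α, false)]) s (mono l s) := by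
  induction l with
  | nil => intro s; exact ⟨fun _ => 1, rfl⟩
  | cons α l ih =>
    intro s
    rw [List.map_cons, List.nodup_cons] at hl
    obtain ⟨h, hr⟩ := ih hl.2 (Function.update s α.tgt (act α.pos (s α.src) (s α.tgt)))
    refine ⟨Function.update h α.name (s α.src), ?_⟩
    rw [List.flatMap_cons, run_append]
    refine ⟨Function.update s α.tgt (act α.pos (s α.src) (s α.tgt)), ?_, ?_⟩
    · simp only [Run, EStep, if_true, if_false, Bool.false_eq_true]
      refine ⟨s, ⟨by rw [Function.update_self], rfl⟩, _, rfl, ?_⟩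
      rw [Function.update_self]
    · refine (run_congr _ _ _ (fun x hx => ?_) _ _).mp hr
      have hx' : x.1 ∈ l := by
        rw [List.mem_flatMap] at hx
        obtain ⟨β, hβ, hx⟩ := hx
        simp only [List.mem_cons, List.not_mem_nil, or_false] at hx
        rcases hx with rfl | rfl <;> exact hβ
      have hne : x.1.name ≠ α.name := by
        intro h
        exact hl.1 (h ▸ List.mem_map_of_mem hx')
      rw [Function.update_of_ne hne]

/-- colours of the two strands at the bottom -/
def col0 : Fin 2 → Equiv.Perm (Fin 3) := ![Equiv.swap 0 1, Equiv.swap 0 1 * Equiv.swap 1 2]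

theorem mono_ne : mono [ax, ay, az, au, aY, aX, aU, aZ] col0 ≠ col0 := by
  intro h
  have h0 := congrFun (congrArg DFunLike.coe (congrFun h 0)) 0
  revert h0
  decide +kernel

theorem word_gauss : IsGauss word := by decide

/-- The diagram `a b b a (b a a b)⁻¹`. -/
def D0 : Diagram 2 := ⟨word, word_gauss⟩

theorem D0_monotone : IsMonotone D0.1 :=
  ⟨[ax, ay, az, au, aY, aX, aU, aZ], by decide, rfl⟩

theorem D0_wsl : (Quot.mk _ D0 : WSL 2) ≠ Quot.mk _ (trivialDiagram 2) := by
  intro h
  have h1 := (col_wsl h col0 (mono [ax, ay, az, au, aY, aX, aU, aZ] col0)).mp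
    (col_mono _ (by decide) col0)
  obtain ⟨k, hk⟩ := h1
  exact mono_ne hk

theorem D0_vslsc : (Quot.mk _ D0 : VSLsc 2) = Quot.mk _ (trivialDiagram 2) :=
  EV.quot word_eq _ _

/-- The pure braid `a b b a (b a a b)⁻¹`. -/
def B0 : BraidDiagram 2 := ⟨D0, word, D0_monotone, Relation.EqvGen.refl _⟩

/-- monotone diagrams as diagrams -/
def VP.toWSL (x : VP n) : WSL n :=
  Quot.lift (fun D : BraidDiagram n => (Quot.mk _ D.1 : WSL n))
    (fun _ _ h => Quot.sound (Or.inl h)) x

/-- monotone diagrams as diagrams -/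
def WP.toWSL (x : WP n) : WSL n :=
  Quot.lift (fun D : BraidDiagram n => (Quot.mk _ D.1 : WSL n)) (fun _ _ h => Quot.sound h) x

theorem B0_vp : (Quot.mk _ B0 : VP 2) ≠ Quot.mk _ (trivialBraid 2) := fun h =>
  D0_wsl (congrArg VP.toWSL h)

theorem B0_wp : (Quot.mk _ B0 : WP 2) ≠ Quot.mk _ (trivialBraid 2) := fun h =>
  D0_wsl (congrArg WP.toWSL h)

/-- virtual string links as welded string links -/
def VSLsc.toWSLsc (x : VSLsc n) : WSLsc n :=
  Quot.lift (fun D : Diagram n => (Quot.mk _ D : WSLsc n))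
    (fun _ _ h => Quot.sound (by rcases h with h | h; exacts [Or.inl h, Or.inr (Or.inr h)])) x

theorem D0_wslsc : (Quot.mk _ D0 : WSLsc 2) = Quot.mk _ (trivialDiagram 2) :=
  congrArg VSLsc.toWSLsc D0_vslsc

end Pool.Agent.R810.DF
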